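import Mathlib

set_option autoImplicit false
set_option linter.unusedSectionVars false

namespace Pool.Agent.Results.MP_2bafa0_co.GeFour

open Finset

section defs
variable {N : Type} [Fintype N] [DecidableEq N]

/-- `W` (the winning coalitions) is a simple game. -/
def IsSimple (W : Finset N → Prop) : Prop :=
  ¬ W ∅ ∧ W univ ∧ ∀ S T, S ⊆ T → W S → W T

/-- `i ⪰ j`. -/
def Des (W : Finset N → Prop) (i j : N) : Prop :=
  ∀ S : Finset N, i ∉ S → j ∉ S → W (insert j S) → W (insert i S)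

def Complete (W : Finset N → Prop) : Prop := ∀ i j, Des W i j ∨ Des W j i

/-- The number of types: the number of classes `{j | i ⪰ j ∧ j ⪰ i}`. -/
noncomputable def numTypes (W : Finset N → Prop) : ℕ :=
  (Set.range fun i => {j | Des W i j ∧ Des W j i}).ncard

/-- `k`-trade robustness. -/
def Robust (W : Finset N → Prop) (k : ℕ) : Prop :=
  ¬ ∃ (j : ℕ) (X Y : Fin j → Finset N), 1 ≤ j ∧ j ≤ k ∧ (∀ a, W (X a)) ∧ (∀ a, ¬ W (Y a)) ∧
    ∀ p, (univ.filter fun a => p ∈ X a).card = (univ.filter fun a => p ∈ Y a).card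

end defs

/-- `t` is unbounded in the sense of the problem. -/
def Unbounded (t : ℕ) : Prop :=
  ∀ k, 2 ≤ k → ∃ (N : Type) (_ : Fintype N) (_ : DecidableEq N) (W : Finset N → Prop),
    IsSimple W ∧ Complete W ∧ numTypes W = t ∧ Robust W k ∧ ¬ Robust W (k + 1)

variable {N : Type} [Fintype N] [DecidableEq N]

structure Good (W : Finset N → Prop) (t k : ℕ) : Prop where
  sim : IsSimple W
  comp : Complete W
  cls : ∃ c : N → Fin t, Function.Surjective c ∧ ∀ i j, (Des W i j ∧ Des W j i) ↔ c i = c j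
  rob : Robust W k
  nrob : ¬ Robust W (k + 1)

theorem Good.num {W : Finset N → Prop} {t k : ℕ} (g : Good W t k) : numTypes W = t := by
  obtain ⟨c, hc, h⟩ := g.cls
  have e : (Set.range fun i => {j | Des W i j ∧ Des W j i}) =
      Set.range fun a : Fin t => {j | a = c j} := by
    rw [← hc.range_comp (fun a : Fin t => {j | a = c j})]
    congr 1
    funext i
    ext j
    exact h i j
  rw [numTypes, e, Set.ncard_range_of_injective, Nat.card_eq_fintype_card, Fintype.card_fin]
  intro a b hab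
  obtain ⟨i, rfl⟩ := hc a
  have : i ∈ {j | b = c j} := by
    have h2 : i ∈ {j | c i = c j} := rfl
    simp only at hab
    rwa [hab] at h2
  exact this.symm

theorem er_ins (S : Finset (Option N)) (i : N) :
    eraseNone (insert (some i) S) = insert i (eraseNone S) := by
  ext; simp

theorem step {W : Finset N → Prop} {V : Finset (Option N) → Prop} {t k : ℕ} (g : Good W t k)
    (hs : IsSimple V) (h1 : ∀ i j, Des V (some i) (some j) ↔ Des W i j) (h2 : ∀ x, Des V none x)
    (h3 : ∀ i, ¬ Des V (some i) none) (hr : ∀ m, Robust V m ↔ Robust W m) : Good V (t + 1) k := by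
  obtain ⟨c, hc, h⟩ := g.cls
  refine ⟨hs, ?_, ⟨fun o => o.elim 0 fun i => (c i).succ, ?_, ?_⟩, (hr _).2 g.rob,
    fun h => g.nrob ((hr _).1 h)⟩
  · rintro (_ | i) (_ | j)
    · exact Or.inl (h2 _)
    · exact Or.inl (h2 _)
    · exact Or.inr (h2 _)
    · rw [h1, h1]; exact g.comp i j
  · intro a
    refine Fin.cases ⟨none, rfl⟩ (fun a => ?_) a
    obtain ⟨i, rfl⟩ := hc a
    exact ⟨some i, rfl⟩
  · rintro (_ | i) (_ | j)
    · simp [h2]
    · simp [h3, (Fin.succ_ne_zero _).symm]
    · simp [h3]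
    · simp [h1, h]

theorem all_of_card {j : ℕ} (P : Fin j → Prop) [DecidablePred P]
    (h : (univ.filter P).card = (univ : Finset (Fin j)).card) (a : Fin j) : P a := by
  have h4 := eq_univ_of_card _ (h.trans card_univ)
  have h5 := mem_univ a
  rw [← h4] at h5
  exact (mem_filter.1 h5).2

theorem veto {W : Finset N → Prop} {t k : ℕ} (g : Good W t k) (hv : ∀ p, W (univ.erase p)) :
    Good (fun S : Finset (Option N) => none ∈ S ∧ W (eraseNone S)) (t + 1) k := by
  set V := fun S : Finset (Option N) => none ∈ S ∧ W (eraseNone S) with hV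
  refine step g ⟨by simp [hV], ⟨mem_univ _, g.sim.2.2 _ _ (fun j _ => by simp) g.sim.2.1⟩,
    fun S T h hS => ⟨h hS.1, g.sim.2.2 _ _ (eraseNone.mono h) hS.2⟩⟩ ?_ ?_ ?_ ?_
  · intro i j
    constructor
    · intro h S hi hj hw
      have := h (insertNone S) (by simpa) (by simpa) (by simpa [hV, er_ins])
      simpa [hV, er_ins] using this
    · intro h S hi hj hw
      simp only [hV, er_ins, mem_insert, reduceCtorEq, false_or] at hw ⊢
      exact ⟨hw.1, h _ (by simpa) (by simpa) hw.2⟩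
  · intro x S hi hj hw
    cases x with
    | none => exact hw
    | some j => simp [hV, hi] at hw
  · intro i h
    have := h ((univ.erase i).map Function.Embedding.some) (by simp) (by simp)
      ⟨by simp, g.sim.2.2 _ _ (fun j hj => by simpa using hj) (hv i)⟩
    simp [hV] at this
  · intro m
    refine not_congr ⟨?_, ?_⟩
    · rintro ⟨j, X, Y, a, b, c, d, e⟩
      refine ⟨j, fun i => eraseNone (X i), fun i => eraseNone (Y i), a, b, fun i => (c i).2,
        fun i hw => d i ⟨?_, hw⟩, fun p => by simpa using e (some p)⟩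
      have := e none
      rw [filter_true_of_mem fun i _ => (c i).1] at this
      exact all_of_card _ this.symm i
    · rintro ⟨j, X, Y, a, b, c, d, e⟩
      refine ⟨j, fun i => insertNone (X i), fun i => insertNone (Y i), a, b,
        fun i => ⟨by simp, by simpa using c i⟩, fun i hw => d i (by simpa using hw.2), ?_⟩
      rintro (_ | p)
      · simp
      · simpa using e p

theorem pass {W : Finset N → Prop} {t k : ℕ} (g : Good W t k) (hv : ∀ p, ¬ W {p}) :
    Good (fun S : Finset (Option N) => none ∈ S ∨ W (eraseNone S)) (t + 1) k := by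
  set V := fun S : Finset (Option N) => none ∈ S ∨ W (eraseNone S) with hV
  refine step g ⟨by simpa [hV] using g.sim.1, Or.inl (mem_univ _),
    fun S T h hS => hS.imp (@h _) (g.sim.2.2 _ _ (eraseNone.mono h))⟩ ?_ ?_ ?_ ?_
  · intro i j
    constructor
    · intro h S hi hj hw
      have := h (S.map Function.Embedding.some) (by simpa) (by simpa) (by simpa [hV, er_ins])
      simpa [hV, er_ins] using this
    · intro h S hi hj hw
      simp only [hV, er_ins, mem_insert, reduceCtorEq, false_or] at hw ⊢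
      exact hw.imp id (h _ (by simpa) (by simpa))
  · intro x S hi hj hw
    exact Or.inl (mem_insert_self _ _)
  · intro i h
    have := h ∅ (by simp) (by simp) (Or.inl (mem_insert_self _ _))
    simp only [hV, er_ins] at this
    simpa [hv i] using this
  · intro m
    refine not_congr ⟨?_, ?_⟩
    · rintro ⟨j, X, Y, a, b, c, d, e⟩
      refine ⟨j, fun i => eraseNone (X i), fun i => eraseNone (Y i), a, b,
        fun i => (c i).resolve_left fun hi => ?_,
        fun i hw => d i (Or.inr hw), fun p => by simpa using e (some p)⟩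
      have := e none
      rw [filter_false_of_mem (s := univ) (p := fun a => none ∈ Y a)
        fun i _ h => d i (Or.inl h), card_empty, card_eq_zero] at this
      exact notMem_empty i (this ▸ mem_filter.2 ⟨mem_univ i, hi⟩)
    · rintro ⟨j, X, Y, a, b, c, d, e⟩
      refine ⟨j, fun i => (X i).map Function.Embedding.some,
        fun i => (Y i).map Function.Embedding.some, a, b,
        fun i => Or.inr (by simpa using c i), fun i hw => d i (by simpa [hV] using hw), ?_⟩
      rintro (_ | p)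
      · simp
      · simpa using e p

theorem fill (n : ℕ) (hn : 0 < n) (x : ℕ → ℕ) (hx : ∀ a, x a ≤ n) :
    ∃ X : ℕ → Finset (Fin n), (∀ a, (X a).card = x a) ∧ ∀ (j : ℕ) (p : Fin n),
      (univ.filter fun a : Fin j => p ∈ X a).card =
        ((range (∑ a ∈ range j, x a)).filter fun r => r % n = p).card := by
  set s : ℕ → ℕ := fun j => ∑ a ∈ range j, x a with hs
  set f : ℕ → Fin n := fun r => ⟨r % n, Nat.mod_lt _ hn⟩ with hf
  have hinj : ∀ a, Set.InjOn f (Ico (s a) (s a + x a) : Finset ℕ) := by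
    intro a r hr r' hr' h
    refine Nat.mod_injOn_Ico (s a) n ?_ ?_ (congrArg Fin.val h)
    · have := hx a; simp at hr ⊢; omega
    · have := hx a; simp at hr' ⊢; omega
  refine ⟨fun a => (Ico (s a) (s a + x a)).image f, fun a => ?_, fun j p => ?_⟩
  · rw [card_image_of_injOn (hinj a)]; simp
  · have h1 : ∀ a, (if p ∈ (Ico (s a) (s a + x a)).image f then 1 else 0) =
        ((Ico (s a) (s a + x a)).filter fun r => r % n = p).card := by
      intro a
      split_ifs with h
      · obtain ⟨r, hr, rfl⟩ := mem_image.1 h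
        symm
        refine card_eq_one.2 ⟨r, eq_singleton_iff_unique_mem.2 ⟨mem_filter.2 ⟨hr, rfl⟩, ?_⟩⟩
        intro r' hr'
        exact hinj a (mem_filter.1 hr').1 hr (Fin.ext (mem_filter.1 hr').2)
      · refine (card_eq_zero.2 (filter_false_of_mem fun r hr h2 => h ?_)).symm
        exact mem_image.2 ⟨r, hr, Fin.ext h2⟩
    rw [card_filter, Fin.sum_univ_eq_sum_range
      (fun a => if p ∈ (Ico (s a) (s a + x a)).image f then 1 else 0) j]
    simp only [h1]
    induction j with
    | zero => simp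
    | succ j ih =>
      rw [sum_range_succ, ih, sum_range_succ]
      change ((range (s j)).filter _).card + _ = ((range (s j + x j)).filter _).card
      rw [range_eq_Ico, range_eq_Ico,
        ← Ico_union_Ico_eq_Ico (Nat.zero_le (s j)) (Nat.le_add_right _ (x j)), filter_union,
        card_union_of_disjoint (disjoint_filter_filter (Ico_disjoint_Ico_consecutive _ _ _))]

section base
variable (n w : Fin 4 → ℕ) (Q : ℕ) (P : (Fin 4 → ℕ) → Prop)

abbrev Vt : Type := Σ i : Fin 4, Fin (n i)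

def cnt (S : Finset (Vt n)) (i : Fin 4) : ℕ := (univ.filter fun x : Fin (n i) => ⟨i, x⟩ ∈ S).card

def wt (a : Fin 4 → ℕ) : ℕ := ∑ i, w i * a i

def Wv (a : Fin 4 → ℕ) : Prop := Q < wt w a ∨ (wt w a = Q ∧ P a)

theorem cnt_le (S : Finset (Vt n)) (i : Fin 4) : cnt n S i ≤ n i :=
  (card_filter_le _ _).trans (by simp)

theorem cnt_insert (S : Finset (Vt n)) (p : Vt n) (hp : p ∉ S) :
    cnt n (insert p S) = cnt n S + Pi.single p.1 1 := by
  funext i
  obtain ⟨j, y⟩ := p
  by_cases h : i = j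
  · subst h
    have : (univ.filter fun x : Fin (n i) => (⟨i, x⟩ : Vt n) ∈ insert ⟨i, y⟩ S) =
        insert y (univ.filter fun x : Fin (n i) => ⟨i, x⟩ ∈ S) := by
      ext x; simp
    simp only [cnt, this, Pi.add_apply, Pi.single_eq_same]
    rw [card_insert_of_notMem (by simpa using hp)]
  · simp [cnt, h]

theorem wt_single (a : Fin 4 → ℕ) (i : Fin 4) : wt w (a + Pi.single i 1) = wt w a + w i := by
  simp [wt, mul_add, sum_add_distrib, Pi.single_apply]

theorem cnt_sigma (Z : ∀ i, Finset (Fin (n i))) (i : Fin 4) :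
    cnt n (univ.sigma Z) i = (Z i).card := by
  unfold cnt
  congr 1
  ext z
  simp

theorem base (k : ℕ) (hn : ∀ i, 0 < n i) (hw : ∀ i, 0 < w i) (hinj : Function.Injective w)
    (hQ : ∀ i, w i < Q) (hfull : Q < wt w n) (D : Fin 4 → ℕ) (hD : wt w D = Q) (hD2 : ¬ P D)
    (hD3 : ∀ i, D i ≤ n i) (hD4 : ∀ i j, w j < w i → 1 ≤ D j ∧ D i < n i)
    (hR : ∀ (j : ℕ) (x y : Fin j → Fin 4 → ℕ), 1 ≤ j →
      (∀ a, (∀ i, x a i ≤ n i) ∧ wt w (x a) = Q ∧ P (x a)) →
      (∀ a, (∀ i, y a i ≤ n i) ∧ wt w (y a) = Q ∧ ¬ P (y a)) →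
      (∀ i, ∑ a, x a i = ∑ a, y a i) → k < j)
    (x y : ℕ → Fin 4 → ℕ) (hx : ∀ a, (∀ i, x a i ≤ n i) ∧ wt w (x a) = Q ∧ P (x a))
    (hy : ∀ a, (∀ i, y a i ≤ n i) ∧ wt w (y a) = Q ∧ ¬ P (y a))
    (hxy : ∀ i, ∑ a ∈ range (k + 1), x a i = ∑ a ∈ range (k + 1), y a i) :
    Good (fun S : Finset (Vt n) => Wv w Q P (cnt n S)) 4 k ∧
      ∀ p : Vt n, ¬ Wv w Q P (cnt n {p}) := by
  have h0 : cnt n ∅ = 0 := by funext i; simp [cnt]
  have hw0 : wt w 0 = 0 := by simp [wt]
  have hgt : ∀ p q : Vt n, w q.1 < w p.1 → Des (fun S => Wv w Q P (cnt n S)) p q := by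
    intro p q h S hp hq hS
    simp only [Wv, cnt_insert n S _ hp, cnt_insert n S _ hq, wt_single] at hS ⊢
    omega
  have heq : ∀ p q : Vt n, p.1 = q.1 → Des (fun S => Wv w Q P (cnt n S)) p q := by
    intro p q h S hp hq hS
    simp only [cnt_insert n S _ hp, cnt_insert n S _ hq] at hS ⊢
    rwa [h]
  have hlt : ∀ p q : Vt n, w q.1 < w p.1 → ¬ Des (fun S => Wv w Q P (cnt n S)) q p := by
    rintro ⟨i, p⟩ ⟨j, q⟩ h hd
    obtain ⟨h1, h2⟩ := hD4 i j h
    have hij : i ≠ j := fun e => by subst e; exact lt_irrefl _ h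
    have : ∀ c : Fin 4, ∃ Z : Finset (Fin (n c)),
        (univ.filter fun z => (⟨c, z⟩ : Vt n) = ⟨j, q⟩) ⊆ Z ∧
        Z ⊆ (univ.filter fun z => (⟨c, z⟩ : Vt n) ≠ ⟨i, p⟩) ∧ Z.card = D c := by
      intro c
      refine exists_subsuperset_card_eq (fun z hz => ?_) ?_ ?_
      · simp only [mem_filter, mem_univ, true_and] at hz ⊢
        rw [hz]; intro e; exact hij (congrArg Sigma.fst e).symm
      · by_cases hc : c = j
        · subst hc
          refine le_trans (card_le_one.2 fun a ha b hb => ?_) h1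
          simp only [mem_filter, mem_univ, true_and, Sigma.mk.injEq, heq_eq_eq] at ha hb
          rw [ha, hb]
        · simp [hc]
      · by_cases hc : c = i
        · subst hc
          have : (univ.filter fun z => (⟨c, z⟩ : Vt n) ≠ ⟨c, p⟩) = univ.erase p := by
            ext z; simp
          rw [this, card_erase_of_mem (mem_univ _), card_univ, Fintype.card_fin]; omega
        · simpa [hc] using hD3 c
    choose Z hZ1 hZ2 hZ3 using this
    have hq : (⟨j, q⟩ : Vt n) ∈ univ.sigma Z := by simpa using hZ1 j (by simp)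
    have hp : (⟨i, p⟩ : Vt n) ∉ univ.sigma Z := fun h => by
      have := hZ2 i (mem_sigma.1 h).2
      simp at this
    have hc : cnt n (univ.sigma Z) = D := funext fun c => by rw [cnt_sigma, hZ3]
    have hp' : (⟨i, p⟩ : Vt n) ∉ (univ.sigma Z).erase ⟨j, q⟩ := fun h => hp (mem_of_mem_erase h)
    have h3 := cnt_insert n _ _ (notMem_erase (⟨j, q⟩ : Vt n) (univ.sigma Z))
    rw [insert_erase hq, hc] at h3
    have h4 := hd _ (notMem_erase _ _) hp' (by
      simp only [Wv, cnt_insert n _ _ hp', wt_single]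
      rw [h3, wt_single] at hD
      simp only at hD h
      omega)
    simp only [insert_erase hq, hc, Wv] at h4
    rcases h4 with h4 | h4
    · omega
    · exact hD2 h4.2
  refine ⟨⟨⟨?_, ?_, ?_⟩, ?_, ⟨Sigma.fst, fun i => ⟨⟨i, ⟨0, hn i⟩⟩, rfl⟩, ?_⟩, ?_, ?_⟩, ?_⟩
  · have := hQ 0
    simp only [Wv, h0, hw0]; omega
  · left
    rwa [show cnt n univ = n from funext fun i => by simp [cnt]]
  · intro S T h hS
    have hle : ∀ i, cnt n S i ≤ cnt n T i := fun i =>
      card_le_card fun z hz => by simpa using h (by simpa using hz)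
    by_cases e : cnt n S = cnt n T
    · simpa only [e] using hS
    · obtain ⟨i, hi⟩ := Function.ne_iff.1 e
      have : wt w (cnt n S) < wt w (cnt n T) :=
        sum_lt_sum (fun i _ => Nat.mul_le_mul_left _ (hle i))
          ⟨i, mem_univ _, Nat.mul_lt_mul_of_pos_left (lt_of_le_of_ne (hle i) hi) (hw i)⟩
      simp only [Wv] at hS ⊢
      omega
  · intro p q
    rcases lt_trichotomy (w p.1) (w q.1) with h | h | h
    · exact Or.inr (hgt _ _ h)
    · exact Or.inl (heq _ _ (hinj h))
    · exact Or.inl (hgt _ _ h)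
  · intro p q
    refine ⟨fun h => ?_, fun h => ⟨heq _ _ h, heq _ _ h.symm⟩⟩
    rcases lt_trichotomy (w p.1) (w q.1) with h1 | h1 | h1
    · exact absurd h.1 (hlt _ _ h1)
    · exact hinj h1
    · exact absurd h.2 (hlt _ _ h1)
  · rintro ⟨j, X, Y, a1, a2, hX, hY, e⟩
    have hs : ∀ i, ∑ a, cnt n (X a) i = ∑ a, cnt n (Y a) i := by
      intro i
      simp only [cnt, card_filter] at e ⊢
      rw [sum_comm, sum_comm (s := univ) (t := (univ : Finset (Fin (n i))))]
      exact sum_congr rfl fun z _ => e _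
    have hs2 : ∑ a, wt w (cnt n (X a)) = ∑ a, wt w (cnt n (Y a)) := by
      simp only [wt]
      rw [sum_comm, sum_comm (s := univ) (t := (univ : Finset (Fin 4)))]
      simp only [← mul_sum, hs]
    have b1 : ∀ a ∈ (univ : Finset (Fin j)), Q ≤ wt w (cnt n (X a)) := fun a _ => by
      have := hX a; simp only [Wv] at this; omega
    have b2 : ∀ a ∈ (univ : Finset (Fin j)), wt w (cnt n (Y a)) ≤ Q := fun a _ => by
      have := hY a; simp only [Wv] at this; omega
    have c1 := sum_le_sum b1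
    have c2 := sum_le_sum b2
    have d1 := (sum_eq_sum_iff_of_le b1).1 (by omega)
    have d2 := (sum_eq_sum_iff_of_le b2).1 (by omega)
    have := hR j (fun a => cnt n (X a)) (fun a => cnt n (Y a)) a1
      (fun a => ⟨cnt_le n _, (d1 a (mem_univ _)).symm, by
        have h1 := hX a; have h2 := d1 a (mem_univ _)
        exact (h1.resolve_left (by omega)).2⟩)
      (fun a => ⟨cnt_le n _, d2 a (mem_univ _), fun h => hY a (Or.inr ⟨d2 a (mem_univ _), h⟩)⟩) hs
    omega
  · intro h
    choose X hX1 hX2 using fun i => fill (n i) (hn i) (fun a => x a i) fun a => (hx a).1 i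
    choose Y hY1 hY2 using fun i => fill (n i) (hn i) (fun a => y a i) fun a => (hy a).1 i
    refine h ⟨k + 1, fun a => univ.sigma fun i => X i a, fun a => univ.sigma fun i => Y i a,
      by omega, le_rfl, fun a => ?_, fun a => ?_, ?_⟩
    · show Wv w Q P (cnt n (univ.sigma fun i => X i a))
      rw [show cnt n (univ.sigma fun i => X i a) = x a from
        funext fun i => by rw [cnt_sigma, hX1]]
      exact Or.inr (hx a).2
    · show ¬ Wv w Q P (cnt n (univ.sigma fun i => Y i a))
      rw [show cnt n (univ.sigma fun i => Y i a) = y a from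
        funext fun i => by rw [cnt_sigma, hY1]]
      rintro (h | h)
      · have := (hy a).2.1; omega
      · exact (hy a).2.2 h.2
    · rintro ⟨i, p⟩
      simp only [mem_sigma, mem_univ, true_and]
      rw [hX2, hY2, hxy]
  · intro p
    have := cnt_insert n ∅ p (notMem_empty _)
    rw [insert_empty_eq, h0] at this
    have h1 := hQ p.1
    simp only [Wv, this, wt_single, hw0]
    omega

end base

theorem base2 : ∃ (N : Type) (_ : Fintype N) (_ : DecidableEq N) (W : Finset N → Prop),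
    Good W 4 2 ∧ ∀ p, ¬ W {p} := by
  refine ⟨_, _, _, _, base ![3, 3, 3, 2] ![8, 7, 6, 3] 24 (fun a => 3 ∣ a 0) 2 (by decide)
    (by decide) (by decide) (by decide) (by decide) ![1, 1, 1, 1] (by decide) (by decide)
    (by decide) (by decide) ?_
    (fun a => if a = 0 then ![0, 0, 3, 2] else if a = 1 then ![0, 3, 0, 1] else ![3, 0, 0, 0])
    (fun _ => ![1, 1, 1, 1]) (fun a => by split_ifs <;> decide) (fun a => by decide) (by decide)⟩
  intro j x y hj hx hy hs
  have h1 : 3 ∣ ∑ a, x a 0 := dvd_sum fun a _ => (hx a).2.2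
  have h2 : ∀ a, y a 0 = 1 := by
    intro a
    obtain ⟨b1, b2, b3⟩ := hy a
    have c0 := b1 0; have c1 := b1 1; have c2 := b1 2; have c3 := b1 3
    simp [wt, Fin.sum_univ_four] at b2 c0 c1 c2 c3
    generalize y a 0 = u0 at *
    generalize y a 1 = u1 at *
    interval_cases u0 <;> interval_cases u1 <;> omega
  rw [hs 0] at h1
  simp [h2] at h1
  omega

theorem enum (m a b c d : ℕ) (hm : 2 ≤ m) (hc : c ≤ m ^ 2) (hd : d ≤ m + 1)
    (h : m ^ 3 * a + (m ^ 3 + m ^ 2) * b + (m ^ 2 - 1) * c + (2 * m ^ 2 - 1) * d = m ^ 4 + m ^ 3)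
    (hP : a + d + (m + 1) * b ≠ m + 1) :
    a + d + (m + 1) * b + (m + 2) * (m - 1) * a = m * (m + 1) := by
  have h1 : 1 ≤ m ^ 2 := Nat.one_le_pow _ _ (by omega)
  obtain ⟨l, rfl⟩ : ∃ l, m = l + 2 := ⟨m - 2, by omega⟩
  zify [h1, (by omega : 1 ≤ 2 * (l + 2) ^ 2), (by omega : 1 ≤ l + 2)] at h hP hc hd ⊢
  set m : ℤ := (l : ℤ) + 2 with hm'
  have hm2 : 2 ≤ m := by omega
  obtain ⟨e, he⟩ : ∃ e : ℤ, (c : ℤ) + d = m ^ 2 * e :=
    ⟨m * a + (m + 1) * b + c + 2 * d - m ^ 2 - m, by linear_combination -h⟩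
  have h2 : m * a + (m + 1) * b + d + (m ^ 2 - 1) * e = m ^ 2 + m := by
    have : m ^ 2 * (m * a + (m + 1) * b + d + (m ^ 2 - 1) * e - (m ^ 2 + m)) = 0 := by
      linear_combination h - (m ^ 2 - 1) * he
    have := (mul_eq_zero.1 this).resolve_left (by positivity)
    linarith
  have ha : (0 : ℤ) ≤ a := by positivity
  have hb : (0 : ℤ) ≤ b := by positivity
  have hc0 : (0 : ℤ) ≤ c := by positivity
  have hd0 : (0 : ℤ) ≤ d := by positivity
  have e0 : 0 ≤ e := by
    by_contra hne
    nlinarith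
  have e1 : e ≤ 1 := by
    by_contra hne
    nlinarith
  rcases (by omega : e = 0 ∨ e = 1) with rfl | rfl
  · have hd1 : (d : ℤ) = 0 := by linarith
    obtain ⟨g, hg⟩ : ∃ g : ℤ, (a : ℤ) = (m + 1) * g := ⟨a + b - m, by linear_combination -h2 + hd1⟩
    have g0 : 0 ≤ g := by
      by_contra hne
      nlinarith
    have g1 : g ≤ 1 := by
      by_contra hne
      nlinarith
    rcases (by omega : g = 0 ∨ g = 1) with rfl | rfl
    · have : (a : ℤ) = 0 := by linarith
      rw [this] at h2 ⊢; linarith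
    · exfalso
      have : (m + 1) * b = 0 := by rw [hg] at h2; linarith
      exact hP (by linarith)
  · have a1 : (a : ℤ) ≤ 1 := by
      by_contra hne
      nlinarith
    rcases (by omega : (a : ℤ) = 0 ∨ (a : ℤ) = 1) with h3 | h3
    · exact absurd (by rw [h3] at h2 ⊢; linarith) hP
    · rw [h3] at h2 ⊢; linarith

theorem base3 (m : ℕ) (hm : 2 ≤ m) :
    ∃ (N : Type) (_ : Fintype N) (_ : DecidableEq N) (W : Finset N → Prop),
      Good W 4 (m + 1) ∧ ∀ p, ¬ W {p} := by
  obtain ⟨s, hs⟩ : ∃ s, m ^ 2 = s + m + 2 := ⟨m ^ 2 - m - 2, by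
    have : m + 2 ≤ m ^ 2 := by nlinarith
    omega⟩
  have h3 : m ^ 3 = m * m ^ 2 := by ring
  have h4 : m ^ 4 = m * m ^ 3 := by ring
  have h5 : 2 * m ^ 2 ≤ m ^ 3 := by nlinarith
  have h6 : 2 * m ^ 3 ≤ m ^ 4 := by nlinarith
  have e1 : m ^ 2 - 1 = s + m + 1 := by omega
  have e2 : 2 * m ^ 2 - 1 = 2 * s + 2 * m + 3 := by omega
  refine ⟨_, _, _, _, base ![m + 1, m, m ^ 2, m + 1] ![m ^ 3, m ^ 3 + m ^ 2, m ^ 2 - 1, 2 * m ^ 2 - 1]
    (m ^ 4 + m ^ 3) (fun a => a 0 + a 3 + (m + 1) * a 1 = m + 1) (m + 1) ?_ ?_ ?_ ?_ ?_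
    ![1, 0, m ^ 2 - 1, 1] ?_ ?_ ?_ ?_ ?_
    (fun a => if a = 0 then ![m + 1, 0, 0, 0] else if a = 1 then ![0, 0, s + 1, m + 1]
      else ![0, 1, m ^ 2, 0])
    (fun a => if a = 0 then ![0, m, 0, 0] else ![1, 0, m ^ 2 - 1, 1]) ?_ ?_ ?_⟩
  · intro i; fin_cases i <;> simp <;> omega
  · intro i; fin_cases i <;> simp <;> omega
  · intro i j; fin_cases i <;> fin_cases j <;> simp <;> omega
  · intro i; fin_cases i <;> simp <;> omega
  · simp only [wt, Fin.sum_univ_four]; simp; nlinarith
  · simp only [wt, Fin.sum_univ_four]; simp; rw [e1, e2, h4, h3]; nlinarith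
  · simp; omega
  · intro i; fin_cases i <;> simp
  · intro i j; fin_cases i <;> fin_cases j <;> simp <;> omega
  · intro j x y hj hx hy hxy
    have b1 : ∑ a, (x a 0 + x a 3 + (m + 1) * x a 1) = ∑ _a : Fin j, (m + 1) :=
      sum_congr rfl fun a _ => (hx a).2.2
    have b2 : ∑ a, (y a 0 + y a 3 + (m + 1) * y a 1 + (m + 2) * (m - 1) * y a 0) =
        ∑ _a : Fin j, m * (m + 1) := sum_congr rfl fun a _ => by
      obtain ⟨c1, c2, c3⟩ := hy a
      refine enum m _ _ (y a 2) _ hm (c1 2) (c1 3) ?_ c3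
      simpa [wt, Fin.sum_univ_four] using c2
    simp only [sum_add_distrib, ← mul_sum, hxy, sum_const, card_univ, Fintype.card_fin,
      smul_eq_mul] at b1 b2
    obtain ⟨l, rfl⟩ : ∃ l, m = l + 1 := ⟨m - 1, by omega⟩
    rw [b1, Nat.add_sub_cancel] at b2
    have b3 : (l + 1 + 2) * ∑ a, y a 0 = (l + 1 + 1) * j :=
      Nat.eq_of_mul_eq_mul_left (by omega : 0 < l) (by nlinarith)
    have b4 : l + 1 + 2 ∣ j :=
      Nat.Coprime.dvd_of_dvd_mul_left (by
        rw [show l + 1 + 2 = (l + 1 + 1) + 1 from rfl]; simp) ⟨_, b3.symm⟩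
    have := Nat.le_of_dvd hj b4
    omega
  · intro a
    split_ifs
    · refine ⟨fun i => by fin_cases i <;> simp, ?_, by simp⟩
      simp only [wt, Fin.sum_univ_four]; simp; ring
    · refine ⟨fun i => by fin_cases i <;> simp; omega, ?_, by simp⟩
      simp only [wt, Fin.sum_univ_four]; simp; rw [e1, e2, h4, h3]; nlinarith
    · refine ⟨fun i => by fin_cases i <;> simp; omega, ?_, by simp⟩
      simp only [wt, Fin.sum_univ_four]; simp; rw [e1, h4, h3]; nlinarith
  · intro a
    split_ifs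
    · refine ⟨fun i => by fin_cases i <;> simp, ?_, by simp; omega⟩
      simp only [wt, Fin.sum_univ_four]; simp; ring
    · refine ⟨fun i => by fin_cases i <;> simp, ?_, by simp; omega⟩
      simp only [wt, Fin.sum_univ_four]; simp; rw [e1, e2, h4, h3]; nlinarith
  · intro i
    rw [sum_range_succ', sum_range_succ', sum_range_succ' _ (m + 1)]
    fin_cases i <;> simp
    rw [e1]; nlinarith

theorem all (k : ℕ) (hk : 2 ≤ k) (r : ℕ) :
    ∃ (N : Type) (_ : Fintype N) (_ : DecidableEq N) (W : Finset N → Prop),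
      Good W (4 + r) k ∧ ((∀ p, ¬ W {p}) ∨ ∀ p, W (univ.erase p)) := by
  induction r with
  | zero =>
    rcases hk.eq_or_lt with rfl | h
    · obtain ⟨N, i1, i2, W, g, h⟩ := base2
      exact ⟨N, i1, i2, W, g, Or.inl h⟩
    · obtain ⟨m, rfl⟩ : ∃ m, k = m + 1 := ⟨k - 1, by omega⟩
      obtain ⟨N, i1, i2, W, g, h⟩ := base3 m (by omega)
      exact ⟨N, i1, i2, W, g, Or.inl h⟩
  | succ r ih =>
    obtain ⟨N, i1, i2, W, g, h | h⟩ := ih
    · refine ⟨_, _, _, _, pass g h, Or.inr ?_⟩
      rintro (_ | p)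
      · exact Or.inr (g.sim.2.2 _ _ (fun j _ => by simp) g.sim.2.1)
      · exact Or.inl (by simp)
    · refine ⟨_, _, _, _, veto g h, Or.inl ?_⟩
      rintro (_ | p)
      · simpa using g.sim.1
      · simp

/-- Every `t ≥ 4` is unbounded. -/
theorem result (t : ℕ) (ht : 4 ≤ t) : Unbounded t := by
  intro k hk
  obtain ⟨r, rfl⟩ : ∃ r, t = 4 + r := ⟨t - 4, by omega⟩
  obtain ⟨N, i1, i2, W, g, -⟩ := all k hk r
  exact ⟨N, i1, i2, W, g.sim, g.comp, g.num, g.rob, g.nrob⟩

end Pool.Agent.Results.MP_2bafa0_co.GeFour
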